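import Pool.Agent.Lib.MP_0e7911_co_h88.B2a
import Pool.Agent.Lib.MP_0e7911_co_h56.SymF

/-!
# Newton's identities for two-level systems (part B2)

`Sys.newton`, `Sys.pnewton`.
-/

set_option autoImplicit false

namespace Pool.Agent.Lib.MP_0e7911_co_full

open Finset Pool.Agent.Lib.MP_0e7911_co_h56

variable {K : Type*} [Field K] {q t : K} {V0 V1 : Type*} [AddCommGroup V0] [Module K V0]
    [AddCommGroup V1] [Module K V1]

namespace Sys

variable (S : Sys q t V0 V1)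

theorem P_yZ : S.P = S.y * S.Z := rfl

/-- product rule -/
theorem phi_mul58 (u v : Module.End K V1) :
    S.phi u * S.phi (S.y * v) = S.phi (u * (S.Z * S.y - (q * t) • (S.y * S.Z)) * v) := by
  ext x
  simp only [phi, Module.End.mul_apply, LinearMap.comp_apply, LinearMap.sub_apply,
    LinearMap.smul_apply]
  rw [S.io_d_y]

/-! ### Newton's identities -/

theorem sum_Icc_range {A : Type*} [AddCommMonoid A] (f : ℕ → A) (n : ℕ) :
    ∑ i ∈ Icc 1 (n + 1), f i = ∑ i ∈ range (n + 1), f (i + 1) := by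
  rw [range_eq_Ico, sum_Ico_add' f 0 (n + 1) 1]
  refine sum_congr ?_ fun i _ => rfl
  ext i
  simp only [mem_Icc, mem_Ico]
  omega

/-- the word combination of `N_i` -/
def nw (i : ℕ) : Module.End K V1 :=
  (∑ j ∈ range i, (q * t) ^ j • (S.P ^ j * S.Z * S.P ^ (i - 1 - j) * S.y)) +
  (q * t) ^ i • S.P ^ i

theorem Nk_eq (i : ℕ) : S.Nk (i + 1) = S.phi (S.y * S.nw i) := by
  rw [Nk, nw, mul_add, phi_add, mul_sum, phi_sum, Nat.add_sub_cancel, mul_smul_comm, phi_smul]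
  congr 1
  refine sum_congr rfl fun j hj => ?_
  rw [mul_smul_comm, phi_smul]
  have : i + 1 - 2 - j = i - 1 - j := by omega
  rw [this]
  simp only [mul_assoc]

theorem nw_succ (i : ℕ) : (q * t) • (S.P * S.nw i) = S.nw (i + 1) - S.Z * S.P ^ i * S.y := by
  rw [nw, nw, sum_range_succ', mul_add, mul_sum, smul_add, smul_sum]
  simp only [pow_zero, one_smul, one_mul, Nat.add_sub_cancel, Nat.sub_zero]
  rw [add_right_comm, add_sub_cancel_right]
  congr 1
  · refine sum_congr rfl fun j hj => ?_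
    rw [mul_smul_comm, smul_smul, ← pow_succ', pow_succ' S.P j]
    have : i - (j + 1) = i - 1 - j := by omega
    rw [this]
    simp only [mul_assoc]
  · rw [mul_smul_comm, smul_smul, ← pow_succ', ← pow_succ']

theorem Ek_Nk (m i : ℕ) : S.Ek (m + 1) * S.Nk (i + 1) =
    S.phi (S.P ^ (m + 1) * (S.y * S.nw i)) - S.phi (S.P ^ m * (S.y * S.nw (i + 1))) +
      S.Ek (m + i + 2) := by
  rw [Nk_eq, Ek, phi_mul58, mul_sub, sub_mul, phi_sub]
  have h1 : S.P ^ m * S.y * (S.Z * S.y) * S.nw i = S.P ^ (m + 1) * (S.y * S.nw i) := by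
    rw [pow_succ]; simp only [P_yZ, mul_assoc]
  have h2 : S.P ^ m * S.y * ((q * t) • (S.y * S.Z)) * S.nw i =
      S.P ^ m * (S.y * S.nw (i + 1)) - S.P ^ (m + i + 1) * S.y := by
    rw [mul_smul_comm, smul_mul_assoc, ← P_yZ, mul_assoc, ← mul_smul_comm, nw_succ, mul_sub]
    congr 1
    rw [show m + i + 1 = m + 1 + i by ring, pow_add, pow_succ]
    simp only [P_yZ, mul_assoc]
  rw [h1, h2, phi_sub]
  have h3 : S.phi (S.P ^ (m + i + 1) * S.y) = S.Ek (m + i + 2) := rfl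
  rw [h3]
  abel

/-- Newton's identities -/
theorem newton (k : ℕ) (hk : 0 < k) :
    (k : K) • S.Ek k = ∑ i ∈ Icc 1 k, S.Ek (k - i) * S.Nk i := by
  obtain ⟨n, rfl⟩ : ∃ n, k = n + 1 := ⟨k - 1, by omega⟩
  have h1 : ∑ i ∈ Icc 1 (n + 1), S.Ek (n + 1 - i) * S.Nk i =
      ∑ i ∈ range (n + 1), S.Ek (n - i) * S.Nk (i + 1) := by
    rw [sum_Icc_range]
    exact sum_congr rfl fun i _ => by rw [Nat.add_sub_add_right]
  have key : ∀ m, m ≤ n → ∑ i ∈ range m, S.Ek (n - i) * S.Nk (i + 1) =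
      S.phi (S.P ^ n * (S.y * S.nw 0)) - S.phi (S.P ^ (n - m) * (S.y * S.nw m)) +
        (m : K) • S.Ek (n + 1) := by
    intro m
    induction m with
    | zero => intro _; simp
    | succ m ih =>
      intro hm
      rw [sum_range_succ, ih (by omega)]
      obtain ⟨r, hr⟩ : ∃ r, n - m = r + 1 := ⟨n - m - 1, by omega⟩
      have hr' : n - (m + 1) = r := by omega
      rw [hr, hr', Ek_Nk, show r + m + 2 = n + 1 by omega]
      push_cast
      module
  have h2 : S.phi (S.P ^ n * (S.y * S.nw 0)) = S.Ek (n + 1) := by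
    simp [nw, Ek]
  have h3 : S.phi (S.P ^ (n - n) * (S.y * S.nw n)) = S.Nk (n + 1) := by
    rw [Nat.sub_self, pow_zero, one_mul, Nk_eq]
  rw [h1, sum_range_succ, key n le_rfl, h2, h3, Nat.sub_self]
  simp only [Ek, one_mul]
  push_cast
  module

/-! ### the words `v_l` -/

/-- `v_0 = 1`, `v_{l+1} = Z P^l y` -/
def vw : ℕ → Module.End K V1
  | 0 => 1
  | l + 1 => S.Z * S.P ^ l * S.y

theorem y_vw (l : ℕ) : S.y * S.vw l = S.P ^ l * S.y := by
  cases l with
  | zero => simp [vw]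
  | succ l => rw [vw, pow_succ']; simp only [P_yZ, mul_assoc]

theorem Ek_eq (l : ℕ) : S.Ek (l + 1) = S.phi (S.y * S.vw l) := by
  rw [y_vw]; rfl

theorem phi_Ek (u : Module.End K V1) (l : ℕ) :
    S.phi u * S.Ek (l + 1) = S.phi (u * S.vw (l + 1)) - (q * t) • S.phi (u * S.P * S.vw l) := by
  rw [Ek_eq, phi_mul58, mul_sub, sub_mul, phi_sub, mul_smul_comm, smul_mul_assoc, phi_smul, P_yZ]
  congr 2
  rw [mul_assoc, mul_assoc, y_vw, vw]
  simp only [mul_assoc]

/-- the word combination of `Q_k` -/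
def qw (k : ℕ) : Module.End K V1 := ∑ i ∈ range k, S.P ^ i * S.y * S.P ^ (k - 1 - i)

theorem Qk_eq (k : ℕ) : S.Qk k = S.phi (S.qw k) := rfl

theorem qw_succ (k : ℕ) : S.qw k * S.P = S.qw (k + 1) - S.P ^ k * S.y := by
  rw [qw, qw, sum_range_succ, sum_mul, Nat.add_sub_cancel, Nat.sub_self, pow_zero, mul_one,
    add_sub_cancel_right]
  refine sum_congr rfl fun i hi => ?_
  rw [mul_assoc, ← pow_succ]
  have : k - 1 - i + 1 = k - i := by have := mem_range.1 hi; omega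
  rw [this]

theorem Qk_Ek (i m : ℕ) : S.Qk i * S.Ek (m + 1) =
    S.phi (S.qw i * S.vw (m + 1)) - (q * t) • S.phi (S.qw (i + 1) * S.vw m) +
      (q * t) • S.Ek (i + m + 1) := by
  rw [Qk_eq, phi_Ek, qw_succ, sub_mul, phi_sub, mul_assoc _ S.y, y_vw, ← mul_assoc, ← pow_add]
  have h3 : S.phi (S.P ^ (i + m) * S.y) = S.Ek (i + m + 1) := rfl
  rw [h3]
  module

theorem pnewton (k : ℕ) (hk : 0 < k) :
    qint (q * t) k • S.Ek k = ∑ i ∈ Icc 1 k, (q * t) ^ (i - 1) • (S.Qk i * S.Ek (k - i)) := by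
  obtain ⟨n, rfl⟩ : ∃ n, k = n + 1 := ⟨k - 1, by omega⟩
  have h1 : ∑ i ∈ Icc 1 (n + 1), (q * t) ^ (i - 1) • (S.Qk i * S.Ek (n + 1 - i)) =
      ∑ i ∈ range (n + 1), (q * t) ^ i • (S.Qk (i + 1) * S.Ek (n - i)) := by
    rw [sum_Icc_range]
    exact sum_congr rfl fun i _ => by
      rw [show n + 1 - (i + 1) = n - i by omega, show i + 1 - 1 = i by omega]
  have key : ∀ m, m ≤ n →
      ∑ i ∈ range m, (q * t) ^ i • (S.Qk (i + 1) * S.Ek (n - i)) =
      S.phi (S.qw 1 * S.vw n) - (q * t) ^ m • S.phi (S.qw (m + 1) * S.vw (n - m)) +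
        (∑ i ∈ range m, (q * t) ^ (i + 1)) • S.Ek (n + 1) := by
    intro m
    induction m with
    | zero => intro _; simp
    | succ m ih =>
      intro hm
      rw [sum_range_succ, ih (by omega)]
      obtain ⟨r, hr⟩ : ∃ r, n - m = r + 1 := ⟨n - m - 1, by omega⟩
      have hr' : n - (m + 1) = r := by omega
      rw [hr, hr', Qk_Ek, show m + 1 + r + 1 = n + 1 by omega, sum_range_succ]
      module
  have h2 : S.phi (S.qw 1 * S.vw n) = S.Ek (n + 1) := by
    rw [Ek_eq]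
    simp [qw]
  have h3 : S.phi (S.qw (n + 1) * S.vw (n - n)) = S.Qk (n + 1) := by
    rw [Nat.sub_self, vw, mul_one]; rfl
  rw [h1, sum_range_succ, key n le_rfl, h2, h3, Nat.sub_self]
  simp only [Ek, mul_one, qint]
  rw [sum_range_succ' _ n, pow_zero]
  module

end Sys

end Pool.Agent.Lib.MP_0e7911_co_full
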